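import Mathlib
import Pool.Agent.V1193.NN.C

set_option autoImplicit false

/-!
# The numbers `n ^ n + 1` to real bases

If `n ≥ 2` and `n ^ n + 1` is prime then `n = 2 ^ (2 ^ k)`, and `n ^ n + 1` is the Fermat number with
the index `k + 2 ^ k`.  All the prime factors of this number exceed `2 ^ (k + 2 ^ k + 1)`.  For real
`α > 1` and `β > 0` let `V α β k` be the `2 ^ (k + 2 ^ k + 1)`-rough part (the product, with
multiplicity, of the prime factors larger than this number) of `⌊β * α ^ (2 ^ (k + 2 ^ k))⌋ + 1`, and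
let `N α β` be the set of the `k` with `V α β k` prime.  Then `V 2 1 k = n ^ n + 1` for
`n = 2 ^ (2 ^ k)`, so `N 2 1` describes all primes of the form `n ^ n + 1`, `n ≥ 2`.

We find the exact asymptotic law of the largest element of `N α β` (for every base `α`) and of the
two largest elements (in the mean over base and amplitude), with the weights
`ω k = (k + 2 ^ k + 1) / 2 ^ (k + 2 ^ k)`.  As these weights decrease very fast, the probability that
there is an element `≥ k` is asymptotic to the probability that `k` itself is one.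
-/

namespace Pool.Agent.Results.MP_a70bdc_nt.RealBasesLaw

open Filter Topology MeasureTheory

/-- The product, with multiplicity, of the prime factors of `n` that are larger than `p`. -/
def roughPart (p n : ℕ) : ℕ := (n.primeFactorsList.filter (fun r => p < r)).prod

/-- The `2 ^ (k + 2 ^ k + 1)`-rough part of `⌊β * α ^ (2 ^ (k + 2 ^ k))⌋ + 1`. -/
noncomputable def V (α β : ℝ) (k : ℕ) : ℕ :=
  roughPart (2 ^ (k + 2 ^ k + 1)) (⌊β * α ^ (2 ^ (k + 2 ^ k))⌋₊ + 1)

/-- The `k` with a prime value. -/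
def N (α β : ℝ) : Set ℕ := {k | (V α β k).Prime}

/-- The weight of `k`. -/
noncomputable def ω (k : ℕ) : ℝ := (((k + 2 ^ k : ℕ) : ℝ) + 1) / 2 ^ (k + 2 ^ k)

/-- The constant for a fixed base. -/
noncomputable def L1 (α u v : ℝ) : ℝ :=
  Real.exp Real.eulerMascheroniConstant * Real.log 2 / Real.log α * (v - u)

/-- The constant for two elements: the integral of `(e ^ γ log 2 / x) ^ 2` over the box
`(x0, x1] × (y0, y1]`. -/
noncomputable def L2 (x0 x1 y0 y1 : ℝ) : ℝ :=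
  Real.exp Real.eulerMascheroniConstant ^ 2 * Real.log 2 ^ 2 * (1 / x0 - 1 / x1) * (y1 - y0)

/-- The numbers `n ^ n + 1` to real bases. -/
theorem result :
    -- the point `(2, 1)` belongs to the problem
    (∀ k : ℕ, V 2 1 k = (2 ^ (2 ^ k)) ^ (2 ^ (2 ^ k)) + 1) ∧
    (∀ n : ℕ, 2 ≤ n → ((n ^ n + 1).Prime ↔ ∃ k, n = 2 ^ (2 ^ k) ∧ k ∈ N 2 1)) ∧
    -- every base
    (∀ α : ℝ, 1 < α → (∀ᵐ β : ℝ, 0 < β → (N α β).Finite) ∧ ∀ u v : ℝ, u < v →
      Tendsto (fun k => volume.real {y ∈ Set.Ioc u v | k ∈ N α (Real.exp y)} / ω k)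
        atTop (𝓝 (L1 α u v)) ∧
      Tendsto (fun k => volume.real {y ∈ Set.Ioc u v | IsGreatest (N α (Real.exp y)) k} / ω k)
        atTop (𝓝 (L1 α u v)) ∧
      Tendsto (fun k => volume.real {y ∈ Set.Ioc u v | ∃ l ∈ N α (Real.exp y), k ≤ l} / ω k)
        atTop (𝓝 (L1 α u v)) ∧
      Tendsto (fun k => (∫ y in Set.Ioc u v, ((N α (Real.exp y) ∩ Set.Ici k).ncard : ℝ)) / ω k)
        atTop (𝓝 (L1 α u v))) ∧
    -- correlations of all orders, uniformly for bases `≥ a > 1`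
    (∀ a : ℝ, 1 < a → ∀ u v : ℝ, u < v → ∃ C : ℝ, 0 < C ∧ ∃ k0 : ℕ, ∀ α : ℝ, a ≤ α →
      ∀ J : Finset ℕ, (∀ k ∈ J, k0 ≤ k) →
        volume.real {y ∈ Set.Ioc u v | ∀ k ∈ J, k ∈ N α (Real.exp y)} ≤
          (v - u) * ∏ k ∈ J, (C * ω k)) ∧
    -- the two largest elements, in the mean over base and amplitude
    (∀ x0 x1 y0 y1 : ℝ, 0 < x0 → x0 < x1 → y0 < y1 →
      (∀ ε : ℝ, 0 < ε → ∃ K : ℕ, ∀ k l : ℕ, K ≤ k → k < l →
        |volume.real {z ∈ Set.Ioc x0 x1 ×ˢ Set.Ioc y0 y1 |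
            IsGreatest (N (Real.exp z.1) (Real.exp z.2)) l ∧
            IsGreatest (N (Real.exp z.1) (Real.exp z.2) \ {l}) k} / (ω k * ω l) -
          L2 x0 x1 y0 y1| ≤ ε) ∧
      Tendsto (fun k : ℕ => volume.real {z ∈ Set.Ioc x0 x1 ×ˢ Set.Ioc y0 y1 |
          ∃ p ∈ N (Real.exp z.1) (Real.exp z.2), ∃ q ∈ N (Real.exp z.1) (Real.exp z.2),
            k ≤ p ∧ p < q} / (ω k * ω (k + 1))) atTop (𝓝 (L2 x0 x1 y0 y1))) := by
  have h2 : ((2 : ℕ) : ℝ) = 2 := by norm_num
  refine ⟨fun k => ?_, fun n hn => ?_, fun α hα => ⟨Pool.Agent.V1193.NN.finite_ae hα,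
    fun u v huv => Pool.Agent.V1193.NN.laws_alpha hα huv⟩,
    fun a ha u v huv => Pool.Agent.V1193.NN.corr_N ha huv,
    fun x0 x1 y0 y1 hx0 hx hy => Pool.Agent.V1193.NN.laws_plane hx0 hx hy⟩
  · have h := Pool.Agent.V1193.NN.base_two k
    rw [h2] at h
    exact h
  · have h := Pool.Agent.V1193.NN.prime_iff hn
    rw [h2] at h
    exact h

end Pool.Agent.Results.MP_a70bdc_nt.RealBasesLaw
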